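import Pool.Agent.MP_ea150c_mp.H68.Inf

/-! Null vectors in dimension six and positions in dimension four. -/

namespace Pool.Agent.MP_ea150c_mp.H68

open Matrix Finset

/-- The split quadratic space of dimension six. -/
abbrev Hy (F : Type) : Type := (Fin 3 → F) × (Fin 3 → F)

variable {F : Type} [Field F]

/-- The quadratic form. -/
def Qf (x : Hy F) : F := x.1 ⬝ᵥ x.2

/-- The polar form. -/
def Bf (x y : Hy F) : F := x.1 ⬝ᵥ y.2 + y.1 ⬝ᵥ x.2

/-- The point at infinity. -/
def e0 : Hy F := (0, ![1, 0, 0])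

/-- The origin. -/
def e1 : Hy F := (![1, 0, 0], 0)

/-- The null vector of a position. -/
def lift (X : Fin 4 → F) : Hy F := (![1, X 0, X 1], ![-(X 0 * X 3 + X 1 * X 2), X 3, X 2])

theorem Qf_lift (a : F) (X : Fin 4 → F) : Qf (a • lift X) = 0 := by
  simp [Qf, lift, dotProduct, Fin.sum_univ_three]
  ring

theorem Bf_lift (a b : F) (X Y : Fin 4 → F) : Bf (a • lift X) (b • lift Y) =
    -(a * b) * ((X - Y) 0 * (X - Y) 3 + (X - Y) 1 * (X - Y) 2) := by
  simp [Bf, lift, dotProduct, Fin.sum_univ_three]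
  ring

theorem exists_lift {p : Hy F} (h : Qf p = 0) (h0 : p.1 0 ≠ 0) : ∃ X, p.1 0 • lift X = p := by
  refine ⟨![p.1 1 / p.1 0, p.1 2 / p.1 0, p.2 2 / p.1 0, p.2 1 / p.1 0], ?_⟩
  simp only [Qf, dotProduct, Fin.sum_univ_three] at h
  ext k <;> fin_cases k <;> simp [lift] <;> field_simp
  linear_combination -h

theorem lift_inj {a : F} (ha : a ≠ 0) {X Y : Fin 4 → F} (h : a • lift X = a • lift Y) :
    X = Y := by
  have h1 := smul_right_injective _ ha h
  have h2 := congrArg (fun p : Hy F => (p.1 1, p.1 2, p.2 2, p.2 1)) h1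
  simp only [lift, Prod.mk.injEq] at h2
  ext k
  fin_cases k
  exacts [h2.1, h2.2.1, h2.2.2.1, h2.2.2.2]

variable [Fintype F] [DecidableEq F]
variable {I E : Type} [Fintype I] [DecidableEq I] [Fintype E] [DecidableEq E]

/-- Null vectors at the vertices, not orthogonal along edges; the root is the origin. -/
def cond (s t : E → Option I) (x : I → Hy F) : Prop :=
  (∀ u, Qf (x u) = 0) ∧ ∀ e, Bf ((s e).elim e1 x) ((t e).elim e1 x) ≠ 0

instance (s t : E → Option I) (x : I → Hy F) : Decidable (cond s t x) := by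
  unfold cond
  infer_instance

/-- The number of configurations with given first coordinates. -/
def Sa (s t : E → Option I) (α : I → F) : ℤ :=
  ∑ x : I → Hy F, if cond s t x ∧ (fun u => (x u).1 0) = α then 1 else 0

omit [DecidableEq E] in
theorem Sa_fin (G : H49.PG I E) {α : I → F} (hα : ∀ u, α u ≠ 0) :
    Sa G.src G.tgt α = G.N4pos F := by
  have h1 : ∀ (X : I → Fin 4 → F) (o : Option I),
      o.elim e1 (fun u => α u • lift (X u)) = (o.elim 1 α : F) • lift (o.elim 0 X) := fun X o => by
    cases o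
    · ext k <;> fin_cases k <;> simp [e1, lift]
    · rfl
  have h2 : ∀ o : Option I, (o.elim 1 α : F) ≠ 0 := fun o => by
    cases o
    exacts [one_ne_zero, hα _]
  rw [H49.PG.N4pos, card_filter, Nat.cast_sum, Sa]
  refine (Fintype.sum_of_injective (fun (X : I → Fin 4 → F) u => α u • lift (X u))
    (fun X Y h => funext fun u => lift_inj (hα u) (congrFun h u)) _ _ (fun x hx => ?_)
    fun X => ?_).symm
  · refine if_neg fun h => hx ?_
    obtain ⟨h3, rfl⟩ := h
    choose X hX using fun u => exists_lift (h3.1 u) (hα u)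
    exact ⟨X, funext hX⟩
  · simp only [Nat.cast_ite, Nat.cast_one, Nat.cast_zero]
    congr 1
    have h3 : (fun u => (α u • lift (X u)).1 0) = α := by
      ext u
      simp [lift]
    simp only [cond, Qf_lift, implies_true, true_and, h1, Bf_lift, h3, and_true, ne_eq,
      mul_eq_zero, neg_eq_zero, h2, false_or]

theorem Sa_four (s t : E → Option I) (hE : Fintype.card E = 2 * Fintype.card I) (α : I → F) :
    Sa s t α = ∑ ρ : I → F, ∑ τ : E → F, if gA s t ρ τ (fun o => o.elim 1 α) = 0 then
      (∏ e, wt (τ e)) * (∑ x : I → F,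
        if gA s t ρ τ (fun o => o.elim 0 x) = 0 then (1 : ℤ) else 0) ^ 2 else 0 := by
  let mk : (I → F) × (I → F) × (I × Fin 3 → F) → I → Hy F :=
    fun w u => (![α u, w.1 u, w.2.1 u], fun k => w.2.2 (u, k))
  have h1 : Sa s t α = ∑ w, if cond s t (mk w) then 1 else 0 := by
    refine (Fintype.sum_of_injective mk (fun w w' h => ?_) _ _ (fun x hx => ?_) fun w => ?_).symm
    · refine Prod.ext (funext fun u => ?_) (Prod.ext (funext fun u => ?_) (funext fun p => ?_))
      · exact congrArg (fun x : I → Hy F => (x u).1 1) h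
      · exact congrArg (fun x : I → Hy F => (x u).1 2) h
      · exact congrArg (fun x : I → Hy F => (x p.1).2 p.2) h
    · refine if_neg fun h => hx ⟨(fun u => (x u).1 1, fun u => (x u).1 2,
        fun p => (x p.1).2 p.2), ?_⟩
      ext u k
      · fin_cases k
        exacts [(congrFun h.2 u).symm, rfl, rfl]
      · rfl
    · exact if_congr (and_iff_left rfl).symm rfl rfl
  have h2 : ∀ c a : I → F, (∑ y, if cond s t (mk (c, a, y)) then (1 : ℤ) else 0) =
      ∑ ρ : I → F, ∑ τ : E → F, if gA s t ρ τ (fun o => o.elim 1 α) = 0 ∧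
        gA s t ρ τ (fun o => o.elim 0 c) = 0 ∧ gA s t ρ τ (fun o => o.elim 0 a) = 0 then
          ∏ e, wt (τ e) else 0 := fun c a => by
    let z : Fin 3 → Option I → F := ![fun o => o.elim 1 α, fun o => o.elim 0 c, fun o => o.elim 0 a]
    have h := four (F := F)
      (Matrix.of fun (u : I) (p : I × Fin 3) => if p.1 = u then z p.2 (some u) else 0)
      (Matrix.of fun (e : E) (p : I × Fin 3) => nb (s e) (t e) (z p.2) p.1)
    rw [show Fintype.card (I × Fin 3) = Fintype.card I + Fintype.card E by simp; omega,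
      mul_right_inj' (by positivity)] at h
    have h3 : ∀ (y : I × Fin 3 → F) (o o' : Option I),
        (o.elim e1 (mk (c, a, y))).1 ⬝ᵥ (o'.elim e1 (mk (c, a, y))).2 =
          ∑ p : I × Fin 3, (if o' = some p.1 then z p.2 o else 0) * y p := fun y o o' => by
      cases o' <;> cases o <;>
        simp [mk, z, e1, dotProduct, Fintype.sum_prod_type, Fin.sum_univ_three]
    refine (sum_congr rfl fun y _ => if_congr ?_ rfl rfl).trans
      (h.symm.trans (sum_congr rfl fun ρ _ => sum_congr rfl fun τ _ => if_congr ?_ rfl rfl))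
    · refine and_congr (forall_congr' fun u => ?_) (forall_congr' fun e => ?_)
      · simp [mk, z, Qf, mulVec, dotProduct, Fintype.sum_prod_type, Fin.sum_univ_three]
      · rw [Bf, h3, h3]
        simp only [mulVec, dotProduct, of_apply, nb, add_mul, sum_add_distrib]
    · have h4 : ∀ p : I × Fin 3, (ρ ᵥ* (Matrix.of fun (u : I) (p : I × Fin 3) =>
          if p.1 = u then z p.2 (some u) else 0) + τ ᵥ* (Matrix.of fun (e : E) (p : I × Fin 3) =>
          nb (s e) (t e) (z p.2) p.1)) p = gA s t ρ τ (z p.2) p.1 := fun p => by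
        simp [gA, vecMul, dotProduct]
      simp only [funext_iff, h4, Pi.zero_apply, Prod.forall]
      rw [forall_comm, Fin.forall_fin_succ, Fin.forall_fin_succ, Fin.forall_fin_succ]
      simp [z]
  rw [h1, Fintype.sum_prod_type]
  simp only [Fintype.sum_prod_type, h2]
  rw [sum_congr rfl fun c _ => sum_comm, sum_comm]
  refine sum_congr rfl fun ρ _ => ?_
  rw [sum_congr rfl fun c _ => sum_comm, sum_comm]
  refine sum_congr rfl fun τ _ => ?_
  split_ifs with h
  · rw [sq, sum_mul_sum]
    simp only [h, true_and, mul_sum, mul_ite, mul_one, mul_zero, ← ite_and, and_comm]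
  · simp [h]

theorem core (G : H49.PG I E) (hl : ∀ e, G.src e ≠ G.tgt e)
    (hE : Fintype.card E = 2 * Fintype.card I) (N : I → Prop) [DecidablePred N]
    (h4 : ∀ v, ¬ N v → 4 ≤ Fintype.card {e // G.src e = some v ∨ G.tgt e = some v}) :
    (Fintype.card F : ℤ) ^ 3 ∣
      (∑ x : I → Hy F, if cond G.src G.tgt x ∧ ∀ u, N u → (x u).1 0 ≠ 0 then 1 else 0) -
        ((Fintype.card F : ℤ) - 1) ^ Fintype.card I * G.N4pos F := by
  have h1 : (∑ x : I → Hy F, if cond G.src G.tgt x ∧ ∀ u, N u → (x u).1 0 ≠ 0 then (1 : ℤ)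
      else 0) = ∑ α : I → F, if ∀ u, N u → α u ≠ 0 then Sa G.src G.tgt α else 0 := by
    have h0 : ∀ (p : Prop) [Decidable p] (f : (I → Hy F) → ℤ),
        (if p then ∑ x, f x else 0) = ∑ x, if p then f x else 0 := fun p _ f => by
      split_ifs <;> simp
    simp only [Sa, h0]
    rw [sum_comm]
    refine sum_congr rfl fun x _ => ?_
    rw [sum_eq_single (fun u => (x u).1 0) (fun b _ hb => by simp [hb.symm]) (by simp)]
    simp only [and_true, ← ite_and]
    exact if_congr and_comm rfl rfl
  have h2 : ((Fintype.card F : ℤ) - 1) ^ Fintype.card I =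
      ∑ α : I → F, if ∀ u, α u ≠ 0 then 1 else 0 := by
    have h3 : ∑ a : F, (if a ≠ 0 then (1 : ℤ) else 0) = Fintype.card F - 1 := by
      have : ∀ a : F, (if a ≠ 0 then (1 : ℤ) else 0) = 1 - if a = 0 then 1 else 0 := fun a => by
        by_cases h : a = 0 <;> simp [h]
      simp [this]
    rw [← h3, ← card_univ, ← prod_const, prod_univ_sum, Fintype.piFinset_univ]
    exact sum_congr rfl fun α _ => by rw [Fintype.prod_boole]
  rw [h1, h2, sum_mul, ← sum_sub_distrib]
  refine dvd_sum fun α _ => ?_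
  by_cases h : ∀ u, α u ≠ 0
  · rw [if_pos h, if_pos fun u _ => h u, Sa_fin G h]
    simp
  · rw [if_neg h, zero_mul, sub_zero]
    split_ifs with hN
    · obtain ⟨v, hv⟩ := not_forall.1 h
      rw [Sa_four _ _ hE]
      exact inf_dvd _ _ hl v (h4 v fun h => hv (hN v h)) _ (not_not.1 hv)
    · exact dvd_zero _

end Pool.Agent.MP_ea150c_mp.H68
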