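import Pool.Agent.MP_ea150c_mp.H20.DefsG

/-! Deletion of a vertex. -/

namespace Pool.Agent.MP_ea150c_mp.H68

variable {V E : Type} (s t : E → V) (v : V)

/-- The edges that do not contain the vertex `v`. -/
abbrev Ed : Type := {e : E // s e ≠ v ∧ t e ≠ v}

/-- The first end of an edge of the graph with `v` deleted. -/
def delS (e : Ed s t v) : {u : V // u ≠ v} := ⟨s e.1, e.2.1⟩

/-- The second end of an edge of the graph with `v` deleted. -/
def delT (e : Ed s t v) : {u : V // u ≠ v} := ⟨t e.1, e.2.2⟩

end Pool.Agent.MP_ea150c_mp.H68
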