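import Pool.Agent.MP_ea150c_mp.H94.F1

/-! A Fourier identity over a finite field, and sums over translation orbits. -/

namespace Pool.Agent.MP_ea150c_mp.H68

open Matrix Finset

variable {F : Type} [Field F] [Fintype F] [DecidableEq F]

/-- The weight `q [t = 0] - 1`. -/
def wt (t : F) : ℤ := (if t = 0 then (Fintype.card F : ℤ) else 0) - 1

theorem sum_wt {ψ : AddChar F ℂ} (hψ : ψ ≠ 1) (b : F) :
    ∑ a : F, (wt a : ℂ) * ψ (a * b) = if b ≠ 0 then (Fintype.card F : ℂ) else 0 := by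
  have h1 : ∀ a : F, (wt a : ℂ) * ψ (a * b) =
      (if a = 0 then (Fintype.card F : ℂ) else 0) - ψ (a * b) := fun a => by
    by_cases h : a = 0 <;> simp [wt, h]
  simp only [h1, sum_sub_distrib, H94.sum_line hψ, sum_ite_eq', mem_univ, if_true]
  by_cases h : b = 0 <;> simp [h]

theorem prod_ite_zero' {κ : Type} [Fintype κ] (p : κ → Prop) [DecidablePred p] (c : ℂ) :
    (∏ k, if p k then c else 0) = if ∀ k, p k then c ^ Fintype.card κ else 0 := by
  split_ifs with h
  · simp [h]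
  · push Not at h
    obtain ⟨k, hk⟩ := h
    exact prod_eq_zero (mem_univ k) (if_neg hk)

theorem four {κ J D : Type} [Fintype κ] [DecidableEq κ] [Fintype J] [DecidableEq J] [Fintype D]
    [DecidableEq D] (P : Matrix J κ F) (R : Matrix D κ F) :
    (Fintype.card F : ℤ) ^ Fintype.card κ *
      ∑ ρ : J → F, ∑ t : D → F, (if ρ ᵥ* P + t ᵥ* R = 0 then ∏ e, wt (t e) else 0) =
    (Fintype.card F : ℤ) ^ (Fintype.card J + Fintype.card D) *
      ∑ y : κ → F, if (∀ j, (P *ᵥ y) j = 0) ∧ ∀ e, (R *ᵥ y) e ≠ 0 then 1 else 0 := by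
  let ψ : AddChar F ℂ := AddChar.FiniteField.primitiveChar_to_Complex F
  have hψ : ψ ≠ 1 := by
    have hp : ψ.IsPrimitive := AddChar.FiniteField.primitiveChar_to_Complex_isPrimitive F
    simpa using hp (one_ne_zero (α := F))
  have h1 : ∀ z : κ → F, ∑ y : κ → F, ψ (z ⬝ᵥ y) =
      if z = 0 then (Fintype.card F : ℂ) ^ Fintype.card κ else 0 := fun z => by
    simp only [dotProduct, H94.psi_sum]
    rw [← Fintype.piFinset_univ, ← prod_univ_sum (fun _ => univ) fun k (a : F) => ψ (z k * a)]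
    simp only [mul_comm (z _), H94.sum_line hψ, prod_ite_zero', funext_iff, Pi.zero_apply]
  have h2 : ∀ y : κ → F, ∑ ρ : J → F, ∑ t : D → F,
      (∏ e, (wt (t e) : ℂ)) * ψ ((ρ ᵥ* P + t ᵥ* R) ⬝ᵥ y) =
      (Fintype.card F : ℂ) ^ (Fintype.card J + Fintype.card D) *
        if (∀ j, (P *ᵥ y) j = 0) ∧ ∀ e, (R *ᵥ y) e ≠ 0 then 1 else 0 := fun y => by
    have h3 : ∀ (ρ : J → F) (t : D → F), (∏ e, (wt (t e) : ℂ)) * ψ ((ρ ᵥ* P + t ᵥ* R) ⬝ᵥ y) =
        (∏ j, ψ (ρ j * (P *ᵥ y) j)) * ∏ e, (wt (t e) : ℂ) * ψ (t e * (R *ᵥ y) e) := fun ρ t => by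
      rw [add_dotProduct, ← dotProduct_mulVec, ← dotProduct_mulVec, ψ.map_add_eq_mul,
        prod_mul_distrib]
      simp only [dotProduct, H94.psi_sum]
      ring
    simp only [h3, ← mul_sum, ← sum_mul]
    rw [← Fintype.piFinset_univ, ← prod_univ_sum (fun _ => univ)
      fun j (a : F) => ψ (a * (P *ᵥ y) j), ← Fintype.piFinset_univ,
      ← prod_univ_sum (fun _ => univ) fun e (a : F) => (wt a : ℂ) * ψ (a * (R *ᵥ y) e)]
    simp only [H94.sum_line hψ, sum_wt hψ, prod_ite_zero']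
    by_cases a : ∀ j, (P *ᵥ y) j = 0 <;> by_cases b : ∀ e, (R *ᵥ y) e ≠ 0 <;>
      simp only [a, b, pow_add] <;> simp
  apply Int.cast_injective (α := ℂ)
  push_cast
  rw [mul_sum _ _ ((Fintype.card F : ℂ) ^ (_ + _)), ← sum_congr rfl fun y _ => h2 y, mul_sum,
    sum_comm (s := (univ : Finset (κ → F)))]
  refine sum_congr rfl fun ρ _ => ?_
  rw [mul_sum, sum_comm (s := (univ : Finset (κ → F)))]
  refine sum_congr rfl fun t _ => ?_
  rw [← mul_sum _ (fun y => ψ ((ρ ᵥ* P + t ᵥ* R) ⬝ᵥ y)), h1]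
  split_ifs <;> simp [mul_comm]

/-- Divisibility of weighted sums over a subspace. -/
theorem four_dvd {κ J D : Type} [Fintype κ] [DecidableEq κ] [Fintype J] [DecidableEq J]
    [Fintype D] [DecidableEq D] (P : Matrix J κ F) (R : Matrix D κ F) (n : ℕ)
    (h : Fintype.card κ + n ≤ Fintype.card J + Fintype.card D) :
    (Fintype.card F : ℤ) ^ n ∣
      ∑ ρ : J → F, ∑ t : D → F, (if ρ ᵥ* P + t ᵥ* R = 0 then ∏ e, wt (t e) else 0) := by
  have hq : (Fintype.card F : ℤ) ^ Fintype.card κ ≠ 0 := by positivity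
  rw [← mul_dvd_mul_iff_left hq, four, ← pow_add]
  exact (pow_dvd_pow _ h).mul_right _

theorem sum_orbit {I A : Type} [Fintype I] [DecidableEq I] [AddCommGroup A] [Fintype A]
    [DecidableEq A] (u : I) (c : A → I → A) (hc : ∀ a, c a u = a) (g : (I → A) → ℤ) :
    ∑ x, g x = ∑ x : I → A, if x u = 0 then ∑ a, g (x + c a) else 0 := by
  have h1 : ∀ x, g x = ∑ a, if x u = a then g x else 0 := fun x => by simp
  rw [sum_congr rfl fun x _ => h1 x, sum_comm]
  have h2 : ∀ a, (∑ x : I → A, if x u = a then g x else 0) =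
      ∑ x : I → A, if x u = 0 then g (x + c a) else 0 := fun a => by
    rw [← Equiv.sum_comp (Equiv.addRight (c a))]
    simp [hc]
  rw [sum_congr rfl fun a _ => h2 a, sum_comm]
  refine sum_congr rfl fun x _ => ?_
  split_ifs <;> simp

theorem sum_orbit_inv {I A : Type} [Fintype I] [DecidableEq I] [AddCommGroup A] [Fintype A]
    [DecidableEq A] (u : I) (c : A → I → A) (hc : ∀ a, c a u = a) (g : (I → A) → ℤ)
    (hg : ∀ x a, g (x + c a) = g x) :
    ∑ x, g x = Fintype.card A * ∑ x : I → A, if x u = 0 then g x else 0 := by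
  rw [sum_orbit u c hc, mul_sum]
  refine sum_congr rfl fun x _ => ?_
  split_ifs <;> simp [hg]

end Pool.Agent.MP_ea150c_mp.H68
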