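import Pool.Agent.MP_ea150c_mp.H68.Iso
import Pool.Agent.MP_ea150c_mp.H68.Del
import Pool.Agent.MP_ea150c_mp.H75.Four
import Pool.Agent.MP_ea150c_mp.H9.Div
import Pool.Agent.MP_ea150c_mp.H22.AbsA
import Pool.Agent.MP_ea150c_mp.H44.Abs
import Pool.Agent.MP_ea150c_mp.H26.Blk
import Pool.Agent.MP_ea150c_mp.H59.Tree
import Pool.Agent.MP_ea150c_mp.H33.MT
import Pool.Agent.MP_ea150c_mp.H16.M
import Pool.Agent.MP_ea150c_mp.H83.Trans

/-! Completion invariance of the invariant `c_2` over every finite field. -/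

namespace Pool.Agent.MP_ea150c_mp.H68

open Finset H20

theorem sM : SM :=
  H16.ofM H9.sDiv (H44.ofAbs (H22.ofAbsA (H75.ofFour H94.sF1) H9.sDiv)) H59.sTree
    (H33.ofMT H26.sBlk H59.sTree)

theorem sM' {I E : Type} [DecidableEq I] [Fintype I] [Fintype E] [DecidableEq E]
    (G : H49.PG I E) (h3 : 3 ≤ Fintype.card I) (hE : Fintype.card E = 2 * Fintype.card I)
    (F : Type) [Field F] [Fintype F] :
    (Fintype.card F : ℤ) ^ 3 ∣ (XG G.src G.tgt F : ℤ) + G.N4pos F ∧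
      Fintype.card F ^ 2 ∣ G.N4pos F := by
  classical
  by_cases hc : Conn G.src G.tgt univ
  · exact sM I E G h3 hE hc F
  have h1 : XG G.src G.tgt F = Fintype.card F ^ Fintype.card E := by
    have h2 : univ.filter (IsTree G.src G.tgt) = ∅ := filter_eq_empty_iff.2 fun T _ hT =>
      hc fun u v => (hT.1 u v).mono fun a b ⟨e, _, he⟩ => ⟨e, mem_univ _, he⟩
    have h3 : ∀ α : E → F, Psi G.src G.tgt α = 0 := fun α => by
      unfold Psi
      convert sum_empty
    simp [XG, h3]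
  let S : Option I → Prop := fun o =>
    Relation.EqvGen (fun a b => ∃ e ∈ (univ : Finset E), G.src e = a ∧ G.tgt e = b) o none
  have hS : S none := .refl _
  obtain ⟨u, hu⟩ : ∃ u, ¬ S (some u) := by
    by_contra h
    have h2 : ∀ o, S o := fun o => by
      cases o
      exacts [hS, not_not.1 fun h' => h ⟨_, h'⟩]
    exact hc fun a b => .trans _ _ _ (h2 a) (.symm _ _ (h2 b))
  have he : ∀ e, S (G.src e) ↔ S (G.tgt e) := fun e =>
    ⟨fun h => .trans _ _ _ (.symm _ _ (.rel _ _ ⟨e, mem_univ _, rfl, rfl⟩)) h,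
      fun h => .trans _ _ _ (.rel _ _ ⟨e, mem_univ _, rfl, rfl⟩) h⟩
  have h4 : (Fintype.card F : ℤ) ^ 4 ∣ (G.N4pos F : ℤ) := by
    rw [H49.PG.N4pos, card_filter, Nat.cast_sum,
      sum_orbit_inv u (fun T i => if S (some i) then 0 else T) (by simp [hu])]
    · simp
    · intro x T
      have h5 : ∀ o : Option I, o.elim 0 (x + fun i => if S (some i) then 0 else T) =
          o.elim 0 x + if S o then 0 else T := fun o => by
        cases o
        · simp [hS]
        · rfl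
      simp only [h5, he, add_sub_add_right_eq_sub]
  refine ⟨dvd_add ?_ ((pow_dvd_pow _ (by norm_num)).trans h4), ?_⟩
  · rw [h1, Nat.cast_pow]
    exact pow_dvd_pow _ (by omega)
  · exact_mod_cast (pow_dvd_pow (Fintype.card F : ℤ) (by norm_num : 2 ≤ 4)).trans h4

variable {V E : Type} [Fintype V] [DecidableEq V] [Fintype E] [DecidableEq E] {s t : E → V}

omit [Fintype V] in
theorem card_at (hl : ∀ e, s e ≠ t e) (v : V) :
    Fintype.card {e // s e = v ∨ t e = v} = deg s t v := by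
  rw [Fintype.card_subtype, filter_or, card_union_of_disjoint, deg]
  exact disjoint_filter.2 fun e _ h h' => hl e (h.trans h'.symm)

theorem c2_Z (hl : ∀ e, s e ≠ t e) (h4 : ∀ v, deg s t v = 4) (h5 : 5 ≤ Fintype.card V)
    {v r : V} (hr : r ≠ v) (F : Type) [Field F] [Fintype F] [DecidableEq F] :
    ∃ n : ℤ, (Fintype.card F : ℤ) ∣ c2 (delS s t v) (delT s t v) F + n ∧
      (Fintype.card F : ℤ) ^ 3 ∣ Zp s t v r (e0 : Hy F) e1 -
        ((Fintype.card F : ℤ) - 1) ^ (Fintype.card V - 2) * ((Fintype.card F : ℤ) ^ 2 * n) := by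
  let I := {u : {u : V // u ≠ v} // u ≠ ⟨r, hr⟩}
  let φ : {u : V // u ≠ v} ≃ Option I := (Equiv.optionSubtypeNe _).symm
  have hφ0 : φ.symm none = ⟨r, hr⟩ := rfl
  have hφ1 : ∀ i, φ.symm (some i) = i.1 := fun i => rfl
  let G : H49.PG I (Ed s t v) := ⟨φ ∘ delS s t v, φ ∘ delT s t v, ∅⟩
  have hI : Fintype.card I = Fintype.card V - 2 := by
    have h1 := Fintype.card_congr φ
    simp only [Fintype.card_option, ne_eq, Fintype.card_subtype_compl, Fintype.card_unique] at h1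
    omega
  have hE : Fintype.card (Ed s t v) = 2 * Fintype.card I := by
    have h1 := H83.sum_deg s t
    simp only [h4, sum_const, card_univ, smul_eq_mul] at h1
    rw [Fintype.card_congr (Equiv.subtypeEquivRight fun e => not_or.symm),
      Fintype.card_subtype_compl, card_at hl, h4]
    omega
  obtain ⟨h2, n, h3⟩ := sM' G (by omega) hE F
  have hq : (Fintype.card F : ℤ) ^ 2 ≠ 0 := by positivity
  refine ⟨n, ?_, ?_⟩
  · rw [show XG G.src G.tgt F = _ from H83.xg_map φ _ _ F] at h2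
    obtain ⟨x, hx⟩ : Fintype.card F ^ 2 ∣ XG (delS s t v) (delT s t v) F := by
      have h4 : (Fintype.card F : ℤ) ^ 2 ∣ (G.N4pos F : ℤ) := ⟨n, by exact_mod_cast h3⟩
      exact_mod_cast (dvd_add_left h4).1 ((pow_dvd_pow _ (by norm_num)).trans h2)
    rw [c2, hx, Nat.card_eq_fintype_card, Nat.mul_div_cancel_left _ (by positivity)]
    rw [hx, h3, pow_succ] at h2
    push_cast at h2
    rwa [← mul_add, mul_dvd_mul_iff_left hq] at h2
  let N : I → Prop := fun u => ∃ e, (s e = v ∧ t e = u.1.1) ∨ (s e = u.1.1 ∧ t e = v)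
  have hφ2 : ∀ (u : V) (h : u ≠ v) (i : I), φ ⟨u, h⟩ = some i ↔ u = i.1.1 := fun u h i => by
    rw [← φ.eq_symm_apply, hφ1, Subtype.ext_iff]
  have hc := core (F := F) G (fun e h => hl e (congrArg Subtype.val (φ.injective h))) hE N
    fun u hu => by
      rw [← h4 u.1.1, ← card_at hl]
      refine Fintype.card_le_of_injective (fun e => ⟨⟨e.1, fun h => hu ⟨e.1, Or.inl ⟨h,
        e.2.resolve_left fun h' => u.1.2 (h'.symm.trans h)⟩⟩, fun h => hu ⟨e.1, Or.inr
        ⟨e.2.resolve_right fun h' => u.1.2 (h'.symm.trans h), h⟩⟩⟩,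
        e.2.imp (hφ2 _ _ u).2 (hφ2 _ _ u).2⟩) fun e e' h => ?_
      exact Subtype.ext (congrArg (fun x => x.1.1) h)
  rw [hI, h3] at hc
  push_cast at hc
  convert hc using 2
  let ex : (I → Hy F) → V → Hy F := fun x u => if h : u = v then e0 else (φ ⟨u, h⟩).elim e1 x
  have a0 : ∀ x, ex x v = e0 := fun x => dif_pos rfl
  have a1 : ∀ x u (h : u ≠ v), ex x u = (φ ⟨u, h⟩).elim e1 x := fun x u h => dif_neg h
  have a2 : ∀ x, ex x r = e1 := fun x => by rw [a1 x r hr, ← hφ0, φ.apply_symm_apply]; rfl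
  have a3 : ∀ x (i : I), ex x i.1.1 = x i := fun x i => by
    rw [a1 x _ i.1.2, (hφ2 _ _ i).2 rfl]; rfl
  have b0 : ∀ y : Hy F, Bf e0 y = y.1 0 := fun y => by
    simp [Bf, e0, dotProduct, Fin.sum_univ_three]
  rw [Zp]
  symm
  refine Fintype.sum_of_injective ex (fun x y h => funext fun i => ?_) _ _ (fun x hx => ?_)
    fun x => if_congr ?_ rfl rfl
  · rw [← a3 x, h, a3]
  · refine if_neg fun h => hx ⟨fun i => x i.1.1, funext fun u => ?_⟩
    by_cases hu : u = v
    · rw [hu, a0, h.2.1]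
    · by_cases hu' : u = r
      · rw [hu', a2, h.2.2]
      · exact a3 _ ⟨⟨u, hu⟩, fun h => hu' (congrArg Subtype.val h)⟩
  · simp only [a0, a2, and_true]
    refine ⟨fun ⟨⟨c1, c2⟩, c3⟩ => ⟨fun u => ?_, fun e => ?_⟩, fun ⟨c1, c2⟩ =>
      ⟨⟨fun i => a3 x i ▸ c1 _, fun e => ?_⟩, fun i ⟨e, he⟩ => ?_⟩⟩
    · by_cases hu : u = v
      · simp [hu, a0, Qf, e0]
      · rw [a1 x u hu]
        cases φ ⟨u, hu⟩
        exacts [by simp [Qf, e1], c1 _]
    · have key : ∀ u, u ≠ v → (s e = v ∧ t e = u) ∨ (s e = u ∧ t e = v) →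
          Bf e0 (ex x u) ≠ 0 := fun u hu he => by
        rw [b0, a1 x u hu]
        cases h : φ ⟨u, hu⟩ with
        | none => simp [e1]
        | some i => exact c3 i ⟨e, (hφ2 u hu i).1 h ▸ he⟩
      by_cases h1 : s e = v
      · rw [h1, a0]
        exact key _ (fun h => hl e (h1.trans h.symm)) (Or.inl ⟨h1, rfl⟩)
      · by_cases h2 : t e = v
        · rw [h2, a0, Bf_comm]
          exact key _ h1 (Or.inr ⟨rfl, h2⟩)
        · rw [a1 x _ h1, a1 x _ h2]
          exact c2 ⟨e, h1, h2⟩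
    · have := c2 e.1
      rwa [a1 x _ e.2.1, a1 x _ e.2.2] at this
    · have := c2 e
      rcases he with ⟨h1, h2⟩ | ⟨h1, h2⟩
      · rwa [h1, h2, a0, a3, b0] at this
      · rwa [h1, h2, a0, a3, Bf_comm, b0] at this

theorem completion (hl : ∀ e, s e ≠ t e) (h4 : ∀ v, deg s t v = 4) (h5 : 5 ≤ Fintype.card V)
    (v w : V) (F : Type) [Field F] [Fintype F] :
    (Fintype.card F : ℤ) ∣ c2 (delS s t v) (delT s t v) F - c2 (delS s t w) (delT s t w) F := by
  classical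
  have h1 : ∀ v, ∃ r e, r ≠ v ∧ ((s e = v ∧ t e = r) ∨ (s e = r ∧ t e = v)) := fun v => by
    obtain ⟨e, he | he⟩ := Fintype.card_pos_iff.1 (by rw [card_at hl v, h4]; norm_num)
    · exact ⟨t e, e, fun h => hl e (he.trans h.symm), Or.inl ⟨he, rfl⟩⟩
    · exact ⟨s e, e, fun h => hl e (h.trans he.symm), Or.inr ⟨rfl, he⟩⟩
  obtain ⟨r, e, hr, he⟩ := h1 v
  obtain ⟨r', e', hr', he'⟩ := h1 w
  obtain ⟨n, a1, a2⟩ := c2_Z hl h4 h5 hr F
  obtain ⟨n', b1, b2⟩ := c2_Z hl h4 h5 hr' F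
  rw [Zp_edge s t hr.symm hr'.symm e e' he he'] at a2
  have h2 := dvd_sub b2 a2
  have hq : (Fintype.card F : ℤ) ^ 2 ≠ 0 := by positivity
  rw [sub_sub_sub_cancel_left, ← mul_sub, ← mul_sub, mul_left_comm, pow_succ,
    mul_dvd_mul_iff_left hq] at h2
  have h3 : IsCoprime (Fintype.card F : ℤ) (((Fintype.card F : ℤ) - 1) ^ (Fintype.card V - 2)) :=
    IsCoprime.pow_right ⟨1, -1, by ring⟩
  have h6 := h3.dvd_of_dvd_mul_left h2
  exact (dvd_iff_dvd_of_dvd_sub (by ring_nf; exact dvd_zero _)).1 (dvd_sub (dvd_sub a1 b1) h6)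

end Pool.Agent.MP_ea150c_mp.H68
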