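import Pool.Agent.MP_ea150c_mp.H68.Loc

/-! The graph operator and the contribution of configurations with a vertex at infinity. -/

namespace Pool.Agent.MP_ea150c_mp.H68

open Matrix Finset

variable {F : Type} [Field F] [Fintype F] [DecidableEq F]
variable {I E : Type} [Fintype I] [DecidableEq I] [Fintype E] [DecidableEq E]

/-- The value of `z` at the other end of an edge with ends `a`, `b`, seen from `u`. -/
def nb (a b : Option I) (z : Option I → F) (u : I) : F :=
  (if b = some u then z a else 0) + if a = some u then z b else 0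

/-- The graph operator. -/
def gA (s t : E → Option I) (ρ : I → F) (τ : E → F) (z : Option I → F) (u : I) : F :=
  ρ u * z (some u) + ∑ e, τ e * nb (s e) (t e) z u

omit [Fintype F] [DecidableEq F] in
theorem sum_ind (o : Option I) (x : I → F) :
    ∑ u, (if o = some u then 1 else 0) * x u = o.elim 0 x := by
  cases o <;> simp

omit [Fintype F] [DecidableEq F] in
theorem nb_lin (a b : Option I) (x : I → F) (u : I) :
    ∑ w, nb a b (fun o => if o = some w then 1 else 0) u * x w =
      nb a b (fun o => o.elim 0 x) u := by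
  simp only [nb, add_mul, sum_add_distrib, ← sum_ind]
  congr 1 <;> split_ifs <;> simp

omit [Fintype F] [DecidableEq F] [Fintype I] in
theorem nb_at {a b : Option I} (h : a ≠ b) {v : I} (hv : a = some v ∨ b = some v)
    (z : Option I → F) (u : I) : nb a b z u = (if u = v then z (if a = some v then b else a) else 0) +
      if (if a = some v then b else a) = some u then z (some v) else 0 := by
  rcases hv with rfl | rfl
  · simp [nb, add_comm, eq_comm]
  · simp [nb, h, eq_comm]

theorem inf_dvd (s t : E → Option I) (hl : ∀ e, s e ≠ t e) (v : I)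
    (h4 : 4 ≤ Fintype.card {e // s e = some v ∨ t e = some v}) (z : Option I → F)
    (hz : z (some v) = 0) : (Fintype.card F : ℤ) ^ 3 ∣
    ∑ ρ : I → F, ∑ τ : E → F, if gA s t ρ τ z = 0 then (∏ e, wt (τ e)) *
      (∑ x : I → F, if gA s t ρ τ (fun o => o.elim 0 x) = 0 then (1 : ℤ) else 0) ^ 2 else 0 := by
  rw [sum_orbit v (fun r => Pi.single v r) (by simp)]
  refine dvd_sum fun ρ _ => ?_
  split_ifs with hρ
  swap
  · exact dvd_zero _
  let p : E → Prop := fun e => s e = some v ∨ t e = some v
  rw [sum_comm, ← Equiv.sum_comp (Equiv.piEquivPiSubtypeProd p fun _ => F).symm,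
    Fintype.sum_prod_type_right]
  refine dvd_sum fun o _ => ?_
  let ot : E → Option I := fun e => if s e = some v then t e else s e
  have hot : ∀ e : {e // p e}, ot e ≠ some v := fun e => by
    simp only [ot]
    split_ifs with h
    · exact fun h' => hl e (h.trans h'.symm)
    · exact h
  let M : Matrix I I F := Matrix.of fun u w => (if u = w then ρ u else 0) +
    ∑ e : {e // ¬ p e}, o e * nb (s e) (t e) (fun o => if o = some w then 1 else 0) u
  let T : Matrix {e // p e} I F := Matrix.of fun e u => if ot e = some u then 1 else 0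
  have hn : ∀ (e : {e // ¬ p e}) (y : Option I → F), nb (s e) (t e) y v = 0 := fun e y => by
    have := not_or.1 e.2
    simp [nb, this.1, this.2]
  have hM : M.IsSymm := by
    ext u w
    simp only [M, transpose_apply, of_apply, nb, ← ite_and]
    congr 1
    · by_cases h : u = w <;> simp [h, eq_comm]
    · refine sum_congr rfl fun e _ => ?_
      rw [add_comm]
      congr 2 <;> exact if_congr and_comm rfl rfl
  have hA : ∀ (σ : {e // p e} → F) (r : F) (y : Option I → F) (u : I),
      gA s t (ρ + Pi.single v r) ((Equiv.piEquivPiSubtypeProd p fun _ => F).symm (σ, o)) y u =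
      (ρ u * y (some u) + ∑ e : {e // ¬ p e}, o e * nb (s e) (t e) y u) +
        y (some v) * (σ ᵥ* T) u +
        if u = v then ∑ e, σ e * y (ot e) + r * y (some v) else 0 := fun σ r y u => by
    rw [gA, ← Fintype.sum_subtype_add_sum_subtype p]
    have h1 : ∀ e : {e // p e}, (Equiv.piEquivPiSubtypeProd p fun _ => F).symm (σ, o) e *
        nb (s e) (t e) y u = (if u = v then σ e * y (ot e) else 0) +
          y (some v) * (σ e * T e u) := fun e => by
      rw [nb_at (hl e) e.2]
      simp only [Equiv.piEquivPiSubtypeProd_symm_apply, dif_pos e.2, T, of_apply, ot]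
      split_ifs <;> ring
    have h2 : ∀ e : {e // ¬ p e}, (Equiv.piEquivPiSubtypeProd p fun _ => F).symm (σ, o) e =
        o e := fun e => by simp only [Equiv.piEquivPiSubtypeProd_symm_apply, dif_neg e.2]
    simp only [h1, h2, sum_add_distrib, ← mul_sum, vecMul, dotProduct]
    by_cases h : u = v
    · subst h
      simp
      ring
    · simp [h]
      ring
  have hB : ∀ (σ : {e // p e} → F) (r : F) (x : I → F),
      gA s t (ρ + Pi.single v r) ((Equiv.piEquivPiSubtypeProd p fun _ => F).symm (σ, o))
        (fun o => o.elim 0 x) = opA M v (σ ᵥ* T) r x := fun σ r x => by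
    ext u
    have h1 : (M *ᵥ x) u =
        ρ u * x u + ∑ e : {e // ¬ p e}, o e * nb (s e) (t e) (fun o => o.elim 0 x) u := by
      simp only [M, mulVec, dotProduct, of_apply, add_mul, sum_add_distrib, sum_mul, ← nb_lin,
        mul_sum, mul_assoc]
      rw [sum_comm]
      simp
    have h2 : (σ ᵥ* T) ⬝ᵥ x = ∑ e, σ e * (ot e).elim 0 x := by
      rw [← dotProduct_mulVec]
      simp only [T, mulVec, dotProduct, of_apply, sum_ind]
    rw [hA, opA, Pi.add_apply, Pi.add_apply, h1, h2]
    by_cases h : u = v <;> simp [h]
  have hC : ∀ (σ : {e // p e} → F) (r : F),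
      gA s t (ρ + Pi.single v r) ((Equiv.piEquivPiSubtypeProd p fun _ => F).symm (σ, o)) z = 0 ↔
      (∀ u, ρ u * z (some u) + ∑ e : {e // ¬ p e}, o e * nb (s e) (t e) z u = 0) ∧
        σ ⬝ᵥ (fun e => z (ot e)) = 0 := fun σ r => by
    have h1 : ρ v * z (some v) + ∑ e : {e // ¬ p e}, o e * nb (s e) (t e) z v = 0 := by
      simp [hz, hn]
    simp only [funext_iff, hA, hz, zero_mul, mul_zero, add_zero, Pi.zero_apply, dotProduct]
    refine ⟨fun h => ?_, fun h u => by rw [h.1, h.2, ite_self, add_zero]⟩
    have h2 : ∑ e, σ e * z (ot e) = 0 := by simpa only [h1, zero_add, if_true] using h v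
    exact ⟨fun u => by simpa only [h2, ite_self, add_zero] using h u, h2⟩
  have hD : ∀ σ : {e // p e} → F,
      ∏ e, wt ((Equiv.piEquivPiSubtypeProd p fun _ => F).symm (σ, o) e) =
        (∏ e, wt (o e)) * ∏ e, wt (σ e) := fun σ => by
    rw [← Fintype.prod_subtype_mul_prod_subtype p, mul_comm]
    congr 1 <;> refine prod_congr rfl fun e _ => ?_
    · simp only [Equiv.piEquivPiSubtypeProd_symm_apply, dif_neg e.2]
    · simp only [Equiv.piEquivPiSubtypeProd_symm_apply, dif_pos e.2]
  simp only [hB, hC, hD]
  by_cases h : ∀ u, ρ u * z (some u) + ∑ e : {e // ¬ p e}, o e * nb (s e) (t e) z u = 0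
  · have h5 := (loc hM (v := v) (fun u => by simp [M, hρ, hn]) (τ := T)
      (fun e => by simp [T, hot e]) (fun e => z (ot e)) h4).mul_left (∏ e, wt (o e))
    simp only [mul_sum, mul_ite, mul_zero, ← mul_assoc] at h5
    simpa only [h, implies_true, true_and] using h5
  · simp only [h, false_and, if_false, sum_const_zero, dvd_zero]

end Pool.Agent.MP_ea150c_mp.H68
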