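import Pool.Agent.MP_ea150c_mp.H68.Core

/-! Transitivity of the isometries on pairs of null vectors. -/

namespace Pool.Agent.MP_ea150c_mp.H68

open Matrix Finset

variable {F : Type} [Field F]

theorem Bf_comm (x y : Hy F) : Bf x y = Bf y x := add_comm _ _

theorem Bf_smul (a b : F) (x y : Hy F) : Bf (a • x) (b • y) = a * b * Bf x y := by
  simp [Bf]
  ring

theorem Qf_smul (a : F) (x : Hy F) : Qf (a • x) = a * a * Qf x := by
  simp [Qf]
  ring

theorem Bf_nondeg {x y : Hy F} (h : ∀ z, Bf x z = Bf y z) : x = y := by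
  ext k
  · simpa [Bf] using h (0, Pi.single k 1)
  · simpa [Bf] using h (Pi.single k 1, 0)

/-- The Eichler transformation. -/
def ei (u w x : Hy F) : Hy F := x + Bf x u • w - (Bf x w + Qf w * Bf x u) • u

theorem Qf_ei {u w : Hy F} (hu : Qf u = 0) (hw : Bf w u = 0) (x : Hy F) :
    Qf (ei u w x) = Qf x := by
  have h : Qf (ei u w x) = Qf x + (Bf x w + Qf w * Bf x u) ^ 2 * Qf u -
      Bf x u * (Bf x w + Qf w * Bf x u) * Bf w u := by
    simp only [ei, Qf, Bf, dotProduct, Fin.sum_univ_three, Prod.fst_add, Prod.snd_add,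
      Prod.fst_sub, Prod.snd_sub, Prod.smul_fst, Prod.smul_snd, Pi.add_apply, Pi.sub_apply,
      Pi.smul_apply, smul_eq_mul]
    ring
  rw [h, hu, hw]
  ring

theorem Bf_eq (x y : Hy F) : Bf x y = Qf (x + y) - Qf x - Qf y := by
  simp [Bf, Qf, dotProduct_comm]
  ring

theorem ei_add (u w x y : Hy F) : ei u w (x + y) = ei u w x + ei u w y := by
  simp only [ei, Bf, Prod.fst_add, Prod.snd_add, add_dotProduct, dotProduct_add]
  module

theorem Bf_ei {u w : Hy F} (hu : Qf u = 0) (hw : Bf w u = 0) (x y : Hy F) :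
    Bf (ei u w x) (ei u w y) = Bf x y := by
  rw [Bf_eq, ← ei_add, Qf_ei hu hw, Qf_ei hu hw, Qf_ei hu hw, Bf_eq]

theorem exists_opp {p p' : Hy F} (h : Bf p p' ≠ 0) :
    ∃ z, Qf z = 0 ∧ Bf p z ≠ 0 ∧ Bf e0 z ≠ 0 := by
  by_contra hc
  have h0 : ∀ X, Bf p (lift X) = 0 := fun X => by
    by_contra hX
    exact hc ⟨lift X, by simpa using Qf_lift 1 X, hX, by simp [Bf, e0, lift]⟩
  have a0 := h0 ![0, 0, 0, 0]
  have a1 := h0 ![1, 0, 0, 0]
  have a2 := h0 ![0, 1, 0, 0]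
  have a3 := h0 ![0, 0, 1, 0]
  have a4 := h0 ![0, 0, 0, 1]
  have a5 := h0 ![1, 0, 0, 1]
  simp [Bf, lift, dotProduct, Fin.sum_univ_three] at a0 a1 a2 a3 a4 a5
  refine h ?_
  simp only [Bf, dotProduct, Fin.sum_univ_three]
  linear_combination (p'.1 0) * a0 + p'.1 1 * (a1 - a0) + p'.1 2 * (a2 - a0) +
    p'.2 2 * (a3 - a0) + p'.2 1 * (a4 - a0) - p'.2 0 * (a5 - a1 - a4 + a0)

variable [Fintype F] [DecidableEq F]
variable {V E : Type} [Fintype V] [DecidableEq V] [Fintype E] (s t : E → V)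

/-- Null vectors at the vertices, not orthogonal along edges. -/
def okc (x : V → Hy F) : Prop := (∀ u, Qf (x u) = 0) ∧ ∀ e, Bf (x (s e)) (x (t e)) ≠ 0

instance (x : V → Hy F) : Decidable (okc s t x) := by
  unfold okc
  infer_instance

/-- The number of configurations with two prescribed vectors. -/
def Zp (v r : V) (p p' : Hy F) : ℤ :=
  ∑ x : V → Hy F, if okc s t x ∧ x v = p ∧ x r = p' then 1 else 0

theorem Zp_comm (v r : V) (p p' : Hy F) : Zp s t v r p p' = Zp s t r v p' p :=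
  sum_congr rfl fun _ _ => if_congr (and_congr_right fun _ => and_comm) rfl rfl

theorem Zp_map (g : V → Hy F → Hy F) (hg : ∀ u, Function.Injective (g u))
    (hQ : ∀ u x, Qf (g u x) = 0 ↔ Qf x = 0)
    (hB : ∀ u w x y, Bf (g u x) (g w y) = 0 ↔ Bf x y = 0) (v r : V) (p p' : Hy F) :
    Zp s t v r (g v p) (g r p') = Zp s t v r p p' := by
  have h : Function.Bijective fun (x : V → Hy F) u => g u (x u) :=
    Finite.injective_iff_bijective.1 fun x y h => funext fun u => hg u (congrFun h u)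
  rw [Zp, ← h.sum_comp]
  refine sum_congr rfl fun x _ => if_congr ?_ rfl rfl
  simp only [okc, hQ, ne_eq, hB, (hg _).eq_iff]

theorem Zp_move {v r : V} (hvr : v ≠ r) {u y z : Hy F} (hu : Qf u = 0) (hy : Qf y = 0)
    (hz : Qf z = 0) (h1 : Bf u y ≠ 0) (h2 : Bf u z ≠ 0) : Zp s t v r u y = Zp s t v r u z := by
  obtain ⟨μ, hμ, h3⟩ : ∃ μ : F, μ ≠ 0 ∧ Bf u (μ • z) = Bf u y :=
    ⟨Bf u y / Bf u z, div_ne_zero h1 h2, by
      rw [← one_smul F u, Bf_smul, one_smul, one_mul, div_mul_cancel₀ _ h2]⟩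
  have h4 : ∀ w : V, (if w = r then μ else 1) ≠ 0 := fun w => by
    split_ifs
    exacts [hμ, one_ne_zero]
  have h5 := Zp_map s t (fun w x => (if w = r then μ else 1) • x)
    (fun w => smul_right_injective _ (h4 w)) (fun w x => by simp only [Qf_smul, mul_eq_zero, h4,
      false_or]) (fun w w' x y => by simp only [Bf_smul, mul_eq_zero, h4, false_or]) v r u z
  simp only [if_neg hvr, if_true, one_smul] at h5
  rw [← h5]
  have h6 : Qf (μ • z) = 0 := by rw [Qf_smul, hz, mul_zero]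
  generalize μ • z = z' at h3 h6
  have hsub : ∀ a x y : Hy F, Bf a (x - y) = Bf a x - Bf a y := fun a x y => by
    simp [Bf]
    ring
  have hsm : ∀ (c : F) (a x : Hy F), Bf a (c • x) = c * Bf a x := fun c a x => by
    simpa using Bf_smul 1 c a x
  have hself : ∀ x : Hy F, Qf x = 0 → Bf x x = 0 := fun x hx => by
    rw [Bf, show x.1 ⬝ᵥ x.2 = 0 from hx, add_zero]
  have hw : Bf ((Bf u y)⁻¹ • (z' - y)) u = 0 := by rw [Bf_comm, hsm, hsub, h3, sub_self, mul_zero]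
  have h7 := Zp_map s t (fun _ => ei u ((Bf u y)⁻¹ • (z' - y)))
    (fun _ a b h => Bf_nondeg fun c => by rw [← Bf_ei hu hw, h, Bf_ei hu hw])
    (fun _ x => by rw [Qf_ei hu hw]) (fun _ _ x y => by rw [Bf_ei hu hw]) v r u y
  have h8 : ei u ((Bf u y)⁻¹ • (z' - y)) u = u := by
    simp [ei, hself u hu, (Bf_comm _ _).trans hw]
  have h9 : ei u ((Bf u y)⁻¹ • (z' - y)) y = z' := by
    have hq : Qf (z' - y) = -Bf y z' := by
      have := Bf_eq y (z' - y)
      rw [hsub, hself y hy, add_sub_cancel, h6, hy] at this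
      linear_combination this
    rw [ei, hsm, hsub, hself y hy, Qf_smul, hq, Bf_comm y u, smul_smul, mul_inv_cancel₀ h1,
      show (Bf u y)⁻¹ * (Bf y z' - 0) + (Bf u y)⁻¹ * (Bf u y)⁻¹ * -Bf y z' * Bf u y = 0 by
        field_simp; ring]
    simp
  rw [← h7, h8, h9]

theorem Zp_std {v r : V} (hvr : v ≠ r) {p p' : Hy F} (hp : Qf p = 0) (hp' : Qf p' = 0)
    (h : Bf p p' ≠ 0) : Zp s t v r p p' = Zp s t v r (e0 : Hy F) e1 := by
  obtain ⟨z, h1, h2, h3⟩ := exists_opp h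
  have h0 : Qf (e0 : Hy F) = 0 := by simp [Qf, e0]
  rw [Zp_move s t hvr hp hp' h1 h h2, Zp_comm,
    Zp_move s t hvr.symm h1 hp h0 (Bf_comm p z ▸ h2) (Bf_comm e0 z ▸ h3), Zp_comm,
    Zp_move s t hvr (z := e1) h0 h1 (by simp [Qf, e1]) h3 (by simp [Bf, e0, e1])]

theorem W_eq {v r : V} (hvr : v ≠ r) (e : E) (he : (s e = v ∧ t e = r) ∨ (s e = r ∧ t e = v)) :
    (∑ x : V → Hy F, if okc s t x then (1 : ℤ) else 0) =
      (∑ p : Hy F, ∑ p' : Hy F, if Qf p = 0 ∧ Qf p' = 0 ∧ Bf p p' ≠ 0 then (1 : ℤ) else 0) *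
        Zp s t v r (e0 : Hy F) e1 := by
  have h1 : (∑ x : V → Hy F, if okc s t x then (1 : ℤ) else 0) =
      ∑ p : Hy F, ∑ p' : Hy F, Zp s t v r p p' := by
    simp only [Zp]
    rw [sum_congr rfl fun p _ => sum_comm, sum_comm]
    refine sum_congr rfl fun x _ => ?_
    by_cases h : okc s t x <;> simp [h, ite_and]
  rw [h1, sum_mul]
  refine sum_congr rfl fun p _ => ?_
  rw [sum_mul]
  refine sum_congr rfl fun p' _ => ?_
  split_ifs with h
  · rw [one_mul, Zp_std s t hvr h.1 h.2.1 h.2.2]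
  · rw [zero_mul]
    refine sum_eq_zero fun x _ => if_neg ?_
    rintro ⟨hx, rfl, rfl⟩
    refine h ⟨hx.1 _, hx.1 _, ?_⟩
    have := hx.2 e
    rcases he with ⟨rfl, rfl⟩ | ⟨rfl, rfl⟩
    exacts [this, Bf_comm (x (s e)) (x (t e)) ▸ this]

theorem Zp_edge {v r w r' : V} (hvr : v ≠ r) (hwr : w ≠ r') (e e' : E)
    (he : (s e = v ∧ t e = r) ∨ (s e = r ∧ t e = v))
    (he' : (s e' = w ∧ t e' = r') ∨ (s e' = r' ∧ t e' = w)) :
    Zp s t v r (e0 : Hy F) e1 = Zp s t w r' (e0 : Hy F) e1 := by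
  refine mul_left_cancel₀ (ne_of_gt ?_) ((W_eq s t hvr e he).symm.trans (W_eq s t hwr e' he'))
  have h0 : ∀ p p' : Hy F, (0 : ℤ) ≤ if Qf p = 0 ∧ Qf p' = 0 ∧ Bf p p' ≠ 0 then 1 else 0 :=
    fun p p' => by positivity
  refine sum_pos' (fun p _ => sum_nonneg fun p' _ => h0 p p') ⟨e0, mem_univ _,
    sum_pos' (fun p' _ => h0 _ p') ⟨e1, mem_univ _, ?_⟩⟩
  simp [Qf, Bf, e0, e1]

end Pool.Agent.MP_ea150c_mp.H68
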