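import Pool.Agent.MP_ea150c_mp.H68.Four

/-! The local lemma: a vertex at infinity contributes a multiple of `q ^ 3`. -/

namespace Pool.Agent.MP_ea150c_mp.H68

open Matrix Finset

variable {F : Type} [Field F] [Fintype F] [DecidableEq F]
variable {I D : Type} [Fintype I] [DecidableEq I] [Fintype D] [DecidableEq D]

theorem ker_sq (v : I) (L : (I → F) → I → F) (hL : ∀ x y (a : F), L (x + a • y) = L x + a • L y) :
    (∑ x, if L x = 0 then (1 : ℤ) else 0) ^ 2 =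
      (∑ x, if x v = 0 ∧ L x = 0 then (1 : ℤ) else 0) ^ 2 + ((Fintype.card F : ℤ) ^ 2 - 1) *
        ((∑ x, if x v = 0 ∧ L x = 0 then (1 : ℤ) else 0) *
          ∑ x, if x v = 1 ∧ L x = 0 then (1 : ℤ) else 0) := by
  by_cases h : ∃ c, c v = 1 ∧ L c = 0
  · obtain ⟨c, h1, h2⟩ := h
    have h3 : (∑ x, if x v = 1 ∧ L x = 0 then (1 : ℤ) else 0) =
        ∑ x, if x v = 0 ∧ L x = 0 then (1 : ℤ) else 0 := by
      rw [← Equiv.sum_comp (Equiv.addRight ((1 : F) • c))]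
      simp only [Equiv.coe_addRight, hL, h2]
      simp [h1]
    rw [h3, sum_orbit_inv v (fun a => a • c) (by simp [h1]) _ fun x a => by simp [hL, h2]]
    simp only [← ite_and]
    ring
  · have h0 : L 0 = 0 := by simpa using hL 0 0 1
    have h1 : ∀ x, L x = 0 ↔ x v = 0 ∧ L x = 0 := fun x => ⟨fun hx => ⟨by
      by_contra hv
      exact h ⟨0 + (x v)⁻¹ • x, by simp [hv], by rw [hL, h0, hx]; simp⟩, hx⟩, fun hx => hx.2⟩
    have h2 : (∑ x, if x v = 1 ∧ L x = 0 then (1 : ℤ) else 0) = 0 :=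
      sum_eq_zero fun x _ => if_neg fun hx => h ⟨x, hx⟩
    rw [h2, mul_zero, mul_zero, add_zero]
    simp only [← h1]

theorem dvd_three (hD : 4 ≤ Fintype.card D) (a b c : D → F) : (Fintype.card F : ℤ) ∣
    ∑ s : D → F, if s ⬝ᵥ a = 0 ∧ s ⬝ᵥ b = 0 ∧ s ⬝ᵥ c = 0 then ∏ e, wt (s e) else 0 := by
  have h := four_dvd (F := F) (J := Empty) (κ := Fin 3) 0 (Matrix.of fun e => ![a e, b e, c e]) 1
    (by simpa using hD)
  rw [Fintype.sum_unique, pow_one] at h
  convert h using 3 with s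
  simp [funext_iff, Fin.forall_fin_succ, vecMul, dotProduct]

theorem dvd_two (hD : 4 ≤ Fintype.card D) (a b : D → F) : (Fintype.card F : ℤ) ^ 2 ∣
    ∑ s : D → F, if s ⬝ᵥ a = 0 ∧ s ⬝ᵥ b = 0 then ∏ e, wt (s e) else 0 := by
  have h := four_dvd (F := F) (J := Empty) (κ := Fin 2) 0 (Matrix.of fun e => ![a e, b e]) 2
    (by simpa using hD)
  rw [Fintype.sum_unique] at h
  convert h using 3 with s
  simp [funext_iff, Fin.forall_fin_succ, vecMul, dotProduct]

/-- The symmetric operator with one distinguished row and column. -/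
def opA (M : Matrix I I F) (v : I) (τ : I → F) (r : F) (x : I → F) : I → F :=
  M *ᵥ x + x v • τ + (τ ⬝ᵥ x + r * x v) • Pi.single v 1

omit [Fintype F] [DecidableEq F] in
theorem opA_lin (M : Matrix I I F) (v : I) (τ : I → F) (r : F) (x y : I → F) (a : F) :
    opA M v τ r (x + a • y) = opA M v τ r x + a • opA M v τ r y := by
  ext k
  simp only [opA, mulVec_add, mulVec_smul, dotProduct_add, dotProduct_smul, Pi.add_apply,
    Pi.smul_apply, smul_eq_mul]
  ring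

omit [Fintype F] [DecidableEq F] in
theorem opA_zero {M : Matrix I I F} {v : I} (hv : ∀ u, M v u = 0) {τ : I → F} (hτ : τ v = 0)
    (r : F) (x : I → F) :
    opA M v τ r x = 0 ↔ M *ᵥ x + x v • τ = 0 ∧ τ ⬝ᵥ x + r * x v = 0 := by
  have h1 : (M *ᵥ x + x v • τ) v = 0 := by simp [mulVec, dotProduct, hv, hτ]
  refine ⟨fun h => ?_, fun h => by rw [opA, h.1, h.2]; simp⟩
  have h2 : τ ⬝ᵥ x + r * x v = 0 := by
    have := congrFun h v
    rw [opA, Pi.add_apply, h1] at this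
    simpa using this
  rw [opA, h2] at h
  exact ⟨by simpa using h, h2⟩

theorem locY (M : Matrix I I F) (v : I) (τ : Matrix D I F) (η : D → F)
    (hD : 4 ≤ Fintype.card D) : (Fintype.card F : ℤ) ^ 2 ∣
    ∑ s : D → F, if s ⬝ᵥ η = 0 then (∏ e, wt (s e)) *
      (∑ x : I → F, if x v = 0 ∧ M *ᵥ x = 0 ∧ s ⬝ᵥ (τ *ᵥ x) = 0 then (1 : ℤ) else 0) ^ 2
      else 0 := by
  have h1 : ∀ s : D → F, (if s ⬝ᵥ η = 0 then (∏ e, wt (s e)) *
      (∑ x : I → F, if x v = 0 ∧ M *ᵥ x = 0 ∧ s ⬝ᵥ (τ *ᵥ x) = 0 then (1 : ℤ) else 0) ^ 2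
      else 0) = ∑ c : I → F, ∑ a : I → F,
        if (c v = 0 ∧ M *ᵥ c = 0) ∧ a v = 0 ∧ M *ᵥ a = 0 then
          (if s ⬝ᵥ η = 0 ∧ s ⬝ᵥ (τ *ᵥ c) = 0 ∧ s ⬝ᵥ (τ *ᵥ a) = 0 then ∏ e, wt (s e) else 0)
        else 0 := fun s => by
    by_cases h : s ⬝ᵥ η = 0
    · rw [if_pos h, sq, sum_mul_sum, mul_sum]
      refine sum_congr rfl fun c _ => ?_
      rw [mul_sum]
      refine sum_congr rfl fun a _ => ?_
      simp only [h, true_and, ← ite_and, mul_ite, mul_one, mul_zero]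
      exact if_congr (by tauto) rfl rfl
    · simp [h]
  rw [sum_congr rfl fun s _ => h1 s, sum_comm]
  refine dvd_sum fun c _ => ?_
  rw [sum_comm]
  simp only [sum_ite_irrel, sum_const_zero]
  by_cases hc : c v = 0 ∧ M *ᵥ c = 0
  swap
  · simp [hc]
  by_cases h0 : c = 0
  · refine dvd_sum fun a _ => ?_
    split_ifs
    · simpa [h0] using dvd_two hD η (τ *ᵥ a)
    · exact dvd_zero _
  obtain ⟨u, hu⟩ := Function.ne_iff.1 h0
  replace hu : c u ≠ 0 := hu
  rw [sum_orbit_inv u (fun a => (a / c u) • c) (by simp [hu]), sq]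
  · refine mul_dvd_mul_left _ (dvd_sum fun a _ => ?_)
    split_ifs
    · exact dvd_three hD _ _ _
    · exact dvd_zero _
    · exact dvd_zero _
  · intro x a
    refine if_congr (by simp [mulVec_add, mulVec_smul, hc.1, hc.2]) ?_ rfl
    refine sum_congr rfl fun s _ => if_congr (and_congr_right fun _ => and_congr_right
      fun h => ?_) rfl rfl
    simp [mulVec_add, mulVec_smul, h]

theorem locX {M : Matrix I I F} (hM : M.IsSymm) {v : I} (hv : ∀ u, M v u = 0)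
    {τ : Matrix D I F} (hτ : ∀ e, τ e v = 0) (η : D → F)
    (hD : 4 ≤ Fintype.card D) : (Fintype.card F : ℤ) ^ 3 ∣
    ∑ s : D → F, if s ⬝ᵥ η = 0 then (∏ e, wt (s e)) *
      ∑ x : I → F, (if x v = 1 ∧ M *ᵥ x + s ᵥ* τ = 0 then (1 : ℤ) else 0) else 0 := by
  have h := four_dvd (F := F) (J := I) (κ := Option I)
    (Matrix.of fun j k => k.elim 0 fun k => M j k + if k = v ∧ j = v then 1 else 0)
    (Matrix.of fun e k => k.elim (η e) (τ e)) 3 (by simp; omega)
  rw [sum_comm] at h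
  convert h using 2 with s
  have hv' : M *ᵥ (Pi.single v 1 : I → F) = 0 := by
    ext k
    simp [hM.apply v k, hv]
  rw [← Equiv.sum_comp (Equiv.addRight (Pi.single v 1 : I → F))]
  simp only [Equiv.coe_addRight, mulVec_add, hv', add_zero, Pi.add_apply, Pi.single_eq_same,
    add_eq_right, mul_sum]
  have h0 : ∀ (p : Prop) [Decidable p] (f : (I → F) → ℤ),
      (if p then ∑ x, f x else 0) = ∑ x, if p then f x else 0 := fun p _ f => by
    split_ifs <;> simp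
  rw [h0]
  refine sum_congr rfl fun x _ => ?_
  simp only [mul_ite, mul_one, mul_zero, ← ite_and]
  refine if_congr ?_ rfl rfl
  have h1 : ∀ k, (M *ᵥ x) k = ∑ j, x j * M j k := fun k => by
    simp only [mulVec, dotProduct]
    exact sum_congr rfl fun j _ => by rw [hM.apply k j, mul_comm]
  have h2 : (M *ᵥ x + s ᵥ* τ) v = 0 := by simp [mulVec, vecMul, dotProduct, hv, hτ]
  have h3 : ∀ k, (x ᵥ* (Matrix.of fun j (k : Option I) =>
      k.elim 0 fun k => M j k + if k = v ∧ j = v then (1 : F) else 0) +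
      s ᵥ* (Matrix.of fun e (k : Option I) => k.elim (η e) (τ e))) (some k) =
      (M *ᵥ x + s ᵥ* τ) k + if k = v then x v else 0 := fun k => by
    simp only [Pi.add_apply, h1, vecMul, dotProduct, of_apply, Option.elim, mul_add,
      sum_add_distrib]
    by_cases hk : k = v <;> simp [hk]
    ring
  rw [funext_iff, funext_iff, Option.forall]
  simp only [h3, Pi.zero_apply]
  refine and_congr (by simp [vecMul, dotProduct])
    ⟨fun h k => by rw [h.2 k, h.1, ite_self, add_zero], fun h => ?_⟩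
  have h4 : x v = 0 := by simpa only [h2, zero_add, if_true] using h v
  exact ⟨h4, fun k => by simpa only [h4, ite_self, add_zero] using h k⟩

theorem loc {M : Matrix I I F} (hM : M.IsSymm) {v : I} (hv : ∀ u, M v u = 0)
    {τ : Matrix D I F} (hτ : ∀ e, τ e v = 0) (η : D → F)
    (hD : 4 ≤ Fintype.card D) : (Fintype.card F : ℤ) ^ 3 ∣
    ∑ s : D → F, ∑ r : F, if s ⬝ᵥ η = 0 then (∏ e, wt (s e)) *
      (∑ x : I → F, if opA M v (s ᵥ* τ) r x = 0 then (1 : ℤ) else 0) ^ 2 else 0 := by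
  have h0 : ∀ s : D → F, (s ᵥ* τ) v = 0 := fun s => by simp [vecMul, dotProduct, hτ]
  have h1 : ∀ (s : D → F) r, (∑ x : I → F,
      if x v = 0 ∧ opA M v (s ᵥ* τ) r x = 0 then (1 : ℤ) else 0) =
      ∑ x : I → F, if x v = 0 ∧ M *ᵥ x = 0 ∧ s ⬝ᵥ (τ *ᵥ x) = 0 then (1 : ℤ) else 0 :=
    fun s r => sum_congr rfl fun x _ => if_congr (and_congr_right fun h => by
      simp [opA_zero hv (h0 s), h, dotProduct_mulVec]) rfl rfl
  have h2 : ∀ s : D → F, ∑ r, (∑ x : I → F,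
      if x v = 0 ∧ M *ᵥ x = 0 ∧ s ⬝ᵥ (τ *ᵥ x) = 0 then (1 : ℤ) else 0) *
      (∑ x : I → F, if x v = 1 ∧ opA M v (s ᵥ* τ) r x = 0 then (1 : ℤ) else 0) =
      (∑ x : I → F, if x v = 0 ∧ M *ᵥ x = 0 then (1 : ℤ) else 0) *
      ∑ x : I → F, if x v = 1 ∧ M *ᵥ x + s ᵥ* τ = 0 then (1 : ℤ) else 0 := fun s => by
    rw [← mul_sum, sum_comm, mul_sum, mul_sum]
    refine sum_congr rfl fun c _ => ?_
    by_cases hc : c v = 1 ∧ M *ᵥ c + s ᵥ* τ = 0
    · have h3 : ∀ r, c v = 1 ∧ opA M v (s ᵥ* τ) r c = 0 ↔ r = -((s ᵥ* τ) ⬝ᵥ c) := fun r => by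
        rw [opA_zero hv (h0 s), hc.1, one_smul, mul_one, eq_neg_iff_add_eq_zero, add_comm r]
        simp [hc.2]
      simp only [h3, sum_ite_eq', mem_univ, if_true, if_pos hc]
      congr 1
      refine sum_congr rfl fun a _ => if_congr (and_congr_right fun _ =>
        and_iff_left_of_imp fun h => ?_) rfl rfl
      rw [dotProduct_mulVec, eq_neg_of_add_eq_zero_right hc.2, neg_dotProduct, dotProduct_comm,
        dotProduct_mulVec, ← mulVec_transpose, hM.eq, h]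
      simp
    · have h3 : ∀ r, ¬ (c v = 1 ∧ opA M v (s ᵥ* τ) r c = 0) := fun r h => hc ⟨h.1, by
        simpa [h.1] using ((opA_zero hv (h0 s) r c).1 h.2).1⟩
      simp only [if_neg hc, if_neg (h3 _), sum_const_zero, mul_zero]
  have h3 : ∀ s : D → F, (∑ r : F, if s ⬝ᵥ η = 0 then (∏ e, wt (s e)) *
      (∑ x : I → F, if opA M v (s ᵥ* τ) r x = 0 then (1 : ℤ) else 0) ^ 2 else 0) =
      (Fintype.card F : ℤ) * (if s ⬝ᵥ η = 0 then (∏ e, wt (s e)) *
      (∑ x : I → F, if x v = 0 ∧ M *ᵥ x = 0 ∧ s ⬝ᵥ (τ *ᵥ x) = 0 then (1 : ℤ) else 0) ^ 2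
      else 0) + ((Fintype.card F : ℤ) ^ 2 - 1) *
      (∑ x : I → F, if x v = 0 ∧ M *ᵥ x = 0 then (1 : ℤ) else 0) *
      (if s ⬝ᵥ η = 0 then (∏ e, wt (s e)) *
      ∑ x : I → F, (if x v = 1 ∧ M *ᵥ x + s ᵥ* τ = 0 then (1 : ℤ) else 0) else 0) := fun s => by
    split_ifs
    · simp only [ker_sq v _ (opA_lin M v _ _), h1]
      rw [← mul_sum, sum_add_distrib, ← mul_sum, h2, sum_const, card_univ, nsmul_eq_mul]
      ring
    · simp
  rw [sum_congr rfl fun s _ => h3 s, sum_add_distrib, ← mul_sum, ← mul_sum]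
  refine dvd_add ?_ ((locX hM hv hτ η hD).mul_left _)
  rw [pow_succ']
  exact mul_dvd_mul_left _ (locY M v τ η hD)

end Pool.Agent.MP_ea150c_mp.H68
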